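import Pool.Agent.N585.LB.Res
import Pool.Agent.N401.LBomega
import Pool.Agent.N862.LB.Del
import Pool.Agent.N495.LBdisc
import Pool.Agent.N862.LB.Least
import Pool.Agent.N78.LBFracE
import Pool.Agent.N386.LB8
import Pool.Agent.N769.LB11
import Pool.Agent.N495.LBlevel
import Pool.Agent.N896.LBcond
import Pool.Agent.N545.LB6
import Pool.Agent.N669.LBctry

/-!
# The class of the `ℵ₁`-dense LOTS with countable character has a finite basis iff the uncountable
linear orders have a finite basis

All statements are theorems of ZFC (no forcing axiom, no CH).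

* If the uncountable linear orders have an `n`-element basis under order embeddings, then the class
  `𝒞` has a `2n`-element basis under LOTS embeddings; if `𝒞` has an `n`-element basis then the
  uncountable linear orders have an `(n+2)`-element basis.
* If the uncountable linear orders have a finite basis of pairwise incomparable orders, then the
  least size of a basis of `𝒞` is the size of this basis plus the number of its ccc members.
* If an uncountable set of reals `X`, `ω₁`, `ω₁*`, a Countryman order `C` and `C*` form a basis of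
  the uncountable linear orders (Moore's theorem: PFA implies this), then `𝒞` has a basis with six
  elements, and no smaller one.
-/

namespace Pool.Agent.Results.MP_6f3246_lc.FiniteBasis

open Cardinal Set

universe u

/-- A LOTS embedding: an injective order preserving map which is continuous for the interval
topologies (`Preorder.topology` is generated by the open rays). -/
def IsLOTSEmbedding {A B : Type u} [LinearOrder A] [LinearOrder B] (f : A → B) : Prop :=
  Function.Injective f ∧ (∀ x y, x ≤ y → f x ≤ f y) ∧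
    @Continuous A B (Preorder.topology A) (Preorder.topology B) f

/-- `A` LOTS-embeds into `B`. -/
def LOTSEmbeds (A B : Type u) [LinearOrder A] [LinearOrder B] : Prop :=
  ∃ f : A → B, IsLOTSEmbedding f

/-- `L` is `ℵ₁`-dense: it has at least two points and for all `a < b` the interval `(a, b)` has
cardinality exactly `ℵ₁`. -/
def AlephOneDense (L : Type u) [LinearOrder L] : Prop :=
  (∃ a b : L, a ≠ b) ∧ ∀ a b : L, a < b → #(Ioo a b) = ℵ₁

/-- Every point has countable cofinality and countable coinitiality, wherever these are defined: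
if `x` is the supremum of a nonempty set of smaller points, then it is the supremum of a strictly
increasing sequence of type `ω`, and dually. -/
def CountableCharacter (L : Type u) [LinearOrder L] : Prop :=
  ∀ x : L,
    ((∃ S : Set L, S.Nonempty ∧ (∀ y ∈ S, y < x) ∧ IsLUB S x) →
      ∃ s : ℕ → L, StrictMono s ∧ IsLUB (range s) x) ∧
    ((∃ S : Set L, S.Nonempty ∧ (∀ y ∈ S, x < y) ∧ IsGLB S x) →
      ∃ s : ℕ → L, StrictAnti s ∧ IsGLB (range s) x)

/-- The class `𝒞` of the `ℵ₁`-dense LOTS in which every point has countable cofinality and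
countable coinitiality. -/
def InClass (L : Type u) [LinearOrder L] : Prop :=
  AlephOneDense L ∧ CountableCharacter L

/-- The family `B` (its members are in `𝒞`) is a basis for the class `𝒞`. -/
def IsClassBasis {J : Type} (B : J → Type u) [∀ j, LinearOrder (B j)] : Prop :=
  (∀ j, InClass (B j)) ∧ ∀ (L : Type u) [LinearOrder L], InClass L → ∃ j, LOTSEmbeds (B j) L

/-- The class `𝒞` has a basis with at most `n` elements. -/
def ClassHasBasis (n : ℕ) : Prop :=
  ∃ (B : Fin n → Type u) (_ : ∀ j, LinearOrder (B j)), IsClassBasis B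

/-- The family `T` is a basis for the uncountable linear orders under order embeddings. -/
def IsUncountableBasis {J : Type} (T : J → Type u) [∀ j, LinearOrder (T j)] : Prop :=
  (∀ j, Uncountable (T j)) ∧
    ∀ (S : Type u) [LinearOrder S], Uncountable S → ∃ j, Nonempty (T j ↪o S)

/-- The uncountable linear orders have a basis with at most `n` elements. -/
def UncountableOrdersHaveBasis (n : ℕ) : Prop :=
  ∃ (T : Fin n → Type u) (_ : ∀ j, LinearOrder (T j)), IsUncountableBasis T

/-- The countable chain condition for a linear order: every family of pairwise disjoint nonempty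
open intervals is countable. -/
def IsCCC (L : Type u) [LinearOrder L] : Prop :=
  ∀ F : Set (L × L), (∀ p ∈ F, (Ioo p.1 p.2).Nonempty) →
    F.PairwiseDisjoint (fun p => Ioo p.1 p.2) → F.Countable

/-- The order type `ω₁`. -/
abbrev OmegaOne : Type u := (ord ℵ₁ : Ordinal.{u}).ToType

/-- `C` is a Countryman order: uncountable, and its square is a countable union of chains of the
coordinatewise order. -/
def IsCountryman (C : Type u) [LinearOrder C] : Prop :=
  Uncountable C ∧ ∃ K : ℕ → Set (C × C), (⋃ n, K n) = Set.univ ∧ ∀ n, IsChain (· ≤ ·) (K n)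

/-- The conclusion of Moore's theorem: for some uncountable set of reals `X` and some Countryman
order `C`, the orders `X`, `ω₁`, `ω₁*`, `C`, `C*` form a basis of the uncountable linear orders. -/
def FiveElementBasis : Prop :=
  ∃ (X C : Type u) (_ : LinearOrder X) (_ : LinearOrder C), Uncountable X ∧
    Nonempty (X ↪o ℝ) ∧ IsCountryman C ∧
    ∀ (S : Type u) [LinearOrder S], Uncountable S →
      Nonempty (X ↪o S) ∨ Nonempty (OmegaOne.{u} ↪o S) ∨ Nonempty ((OmegaOne.{u})ᵒᵈ ↪o S) ∨
        Nonempty (C ↪o S) ∨ Nonempty (Cᵒᵈ ↪o S)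

theorem classHasBasis_iff (n : ℕ) :
    ClassHasBasis.{u} n ↔ Pool.Agent.N585.LB.CBasis.{u} n := by
  have key : ∀ (B : Fin n → Type u) (_ : ∀ j, LinearOrder (B j)),
      IsClassBasis B ↔ Pool.Agent.N585.LB.IsCBasis B := by
    intro B _
    have h1 : ∀ (L : Type u) [LinearOrder L], InClass L ↔ Pool.Agent.N585.LB.InC L :=
      fun L _ => Pool.Agent.N585.LB.inC_iff
    have h2 : ∀ (A L : Type u) [LinearOrder A] [LinearOrder L],
        LOTSEmbeds A L ↔ Pool.Agent.N585.LB.LotsLE A L := fun A L _ _ =>
      exists_congr fun f => Pool.Agent.N585.LB.isLOTSEmbedding_iff f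
    constructor
    · rintro ⟨ha, hb⟩
      refine ⟨fun j => (h1 _).1 (ha j), fun L _ hL => ?_⟩
      obtain ⟨j, hj⟩ := hb L ((h1 L).2 hL)
      exact ⟨j, (h2 _ _).1 hj⟩
    · rintro ⟨ha, hb⟩
      refine ⟨fun j => (h1 _).2 (ha j), fun L _ hL => ?_⟩
      obtain ⟨j, hj⟩ := hb L ((h1 L).1 hL)
      exact ⟨j, (h2 _ _).2 hj⟩
  exact ⟨fun ⟨B, i, h⟩ => ⟨B, i, (key B i).1 h⟩, fun ⟨B, i, h⟩ => ⟨B, i, (key B i).2 h⟩⟩

/-- Main theorem. -/
theorem result :
    ((∃ n, ClassHasBasis.{u} n) ↔ ∃ n, UncountableOrdersHaveBasis.{u} n) ∧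
    (∀ n, UncountableOrdersHaveBasis.{u} n → ClassHasBasis.{u} (2 * n)) ∧
    (∀ n, ClassHasBasis.{u} n → UncountableOrdersHaveBasis.{u} (n + 2)) ∧
    (∀ (J : Type) [Fintype J] (T : J → Type u) [∀ j, LinearOrder (T j)],
      IsUncountableBasis T → (∀ i j, i ≠ j → ¬ Nonempty (T i ↪o T j)) →
      IsLeast {n | ClassHasBasis.{u} n} (Fintype.card J + Nat.card {j // IsCCC (T j)})) ∧
    (FiveElementBasis.{u} → IsLeast {n | ClassHasBasis.{u} n} 6) := by
  have hOm := Pool.Agent.N401.LBomega.stmOmega.{u}
  have hCond := Pool.Agent.N896.LBcond.stmCond.{u} hOm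
  have hDel := Pool.Agent.N862.LB.stmDel.{u}
  have hDisc := Pool.Agent.N495.LBdisc.stmDisc.{u}
  have hLeast := Pool.Agent.N862.LB.stmLeast.{u} hOm hDel hDisc
  have hFC := Pool.Agent.N545.LB6.stmFracC.{u}
  have hFE := Pool.Agent.N78.LBFracE.stmFracE.{u} hDel
  have hDi := Pool.Agent.N386.LB8.stmDiscr.{u}
  have hNo := Pool.Agent.N769.LB11.stmNoFrac.{u}
  have hLev := Pool.Agent.N495.LBlevel.stmLevel.{u}
  have hA : Pool.Agent.N585.LB.StmCtryA.{u} := Pool.Agent.N669.LB.stmCtryA hOm
  have hC : Pool.Agent.N585.LB.StmCtryC.{u} := Pool.Agent.N669.LB.stmCtryC hOm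
  have h2 : ∀ n, UncountableOrdersHaveBasis.{u} n → ClassHasBasis.{u} (2 * n) := fun n h =>
    (classHasBasis_iff _).2
      (Pool.Agent.N585.LB.UBasis_CBasis hOm hCond hDel hDisc hLeast hFC hFE hDi h)
  have h3 : ∀ n, ClassHasBasis.{u} n → UncountableOrdersHaveBasis.{u} (n + 2) := fun n h =>
    Pool.Agent.N585.LB.CBasis_UBasis hOm hCond ((classHasBasis_iff _).1 h)
  have hset : {n | ClassHasBasis.{u} n} = {n | Pool.Agent.N585.LB.CBasis.{u} n} :=
    Set.ext fun n => classHasBasis_iff n
  refine ⟨⟨fun ⟨n, h⟩ => ⟨_, h3 n h⟩, fun ⟨n, h⟩ => ⟨_, h2 n h⟩⟩, h2, h3, ?_, ?_⟩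
  · intro J _ T _ hT hI
    rw [hset]
    exact Pool.Agent.N585.LB.exact hOm hCond hDel hDisc hLeast hFC hFE hDi hNo hLev T hT hI
  · intro h
    rw [hset]
    exact Pool.Agent.N585.LB.moore hOm hCond hDel hDisc hLeast hFC hFE hDi hNo hLev hA hC h

end Pool.Agent.Results.MP_6f3246_lc.FiniteBasis
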